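import Pool.Agent.LRG.StmtsB

set_option autoImplicit false

/-! Row JTR of squad LRG: the ideal of the relations and homomorphisms. -/

open Polynomial IsLocalRing

namespace Pool.Agent.LRG.H26

lemma yv_map (D : ℕ → ℕ) (m : ℕ) (A B : Type) [CommRing A] [CommRing B] (Φ : A →+* B) (k : ℕ) :
    ∀ (x : Fin (m + k) → A) (i : Fin m), Φ (yv D k x i) = yv D k (fun j => Φ (x j)) i := by
  induction k with
  | zero => intro x i; rfl
  | succ k ih =>
    intro x i
    have h := ih (Fin.tail (n := m + k) (α := fun _ => A) x) i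
    simp only [yv, map_sub, map_pow]
    rw [h]
    rfl

lemma gv_map {A B : Type} [CommRing A] [CommRing B] (Φ : A →+* B) {n D : ℕ}
    (c : (Fin n → Fin (D + 1)) → A) (V : Fin n → A) :
    Φ (gv c V) = gv (fun α => Φ (c α)) (fun i => Φ (V i)) := by
  simp only [gv, map_sum, map_mul, map_prod, map_pow]

lemma cons_map {A B : Type} (f : A → B) {n : ℕ} (a : A) (v : Fin n → A) :
    (fun i => f (Fin.cons (α := fun _ => A) a v i)) =
      Fin.cons (α := fun _ => B) (f a) (fun i => f (v i)) := by
  funext i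
  refine Fin.cases ?_ (fun j => ?_) i
  · simp
  · simp

lemma rel_map (D : ℕ → ℕ) {m : ℕ} {A B : Type} [CommRing A] [CommRing B] (Φ : A →+* B)
    (s : (j : ℕ) → (Fin (m + 1) → Fin (D j + 1)) → A) (k : ℕ) (x : Fin (m + (k + 1)) → A) :
    Φ (gv (s k) (Fin.cons (α := fun _ => A) (x (0 : Fin (m + k + 1)))
        (yv D k (Fin.tail (n := m + k) (α := fun _ => A) x)))) =
      gv (fun α => Φ (s k α)) (Fin.cons (α := fun _ => B) (Φ (x (0 : Fin (m + k + 1))))
        (yv D k (Fin.tail (n := m + k) (α := fun _ => B) (fun j => Φ (x j))))) := by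
  rw [gv_map, cons_map]
  have h : (fun i => Φ (yv D k (Fin.tail (n := m + k) (α := fun _ => A) x) i)) =
      yv D k (Fin.tail (n := m + k) (α := fun _ => B) (fun j => Φ (x j))) := by
    funext i
    rw [yv_map]
    rfl
  rw [h]

theorem jtr : JtrStmt := by
  intro D m A B _ _ Φ s k
  induction k with
  | zero =>
    intro x
    refine ⟨yv_map D m A B Φ 0 x, ?_, ?_⟩
    · intro a ha
      have ha' : a = 0 := by simpa [Jt] using ha
      rw [ha', map_zero]
      exact Ideal.zero_mem _
    · intro _ a ha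
      have ha' : a = 0 := by simpa [Jt] using ha
      rw [ha', map_zero]
  | succ k ih =>
    intro x
    obtain ⟨-, ih1, ih2⟩ := ih (Fin.tail (n := m + k) (α := fun _ => A) x)
    refine ⟨yv_map D m A B Φ (k + 1) x, ?_, ?_⟩
    · intro a ha
      rw [Jt] at ha ⊢
      obtain ⟨b, hb, c, hc, rfl⟩ := Submodule.mem_sup.mp ha
      obtain ⟨d, rfl⟩ := Ideal.mem_span_singleton'.mp hc
      rw [map_add, map_mul, rel_map]
      refine Submodule.add_mem_sup (ih1 b hb) ?_
      exact Ideal.mul_mem_left _ _ (Ideal.mem_span_singleton_self _)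
    · intro hR a ha
      rw [Jt] at ha
      obtain ⟨hR1, hR2⟩ := hR
      obtain ⟨b, hb, c, hc, rfl⟩ := Submodule.mem_sup.mp ha
      obtain ⟨d, rfl⟩ := Ideal.mem_span_singleton'.mp hc
      rw [map_add, map_mul, rel_map, ih2 hR1 b hb, zero_add]
      exact (congrArg (fun t => Φ d * t) hR2).trans (mul_zero _)

end Pool.Agent.LRG.H26
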